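import Pool.Agent.Helper92.WK.Dcn
import Pool.Agent.Helper57.THA.St

/-!
# THEOREM A for corners, rows CONN and DEEP, and the walks of one step
-/

set_option autoImplicit false

namespace Pool.Agent.Helper92.THA

open Finset Filter Topology Pool.Agent.Helper69.RK Pool.Agent.Helper31.EC Pool.Agent.Helper31.EC.Sp
open Pool.Agent.Helper31.EC.QS Pool.Agent.Helper40.EL
open Pool.Agent.Helper13.AM Pool.Agent.Helper79.HLD Pool.Agent.Helper92.WK
open Pool.Agent.Helper57.TA Pool.Agent.Helper57.THA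
open Pool.Agent.Helper79.WLK (LB LR sh EdgD edgD_of_tr walk_of_WI)

noncomputable section

variable {S : Sp} {d N r : ℕ} {c : CD S d N r} {w : Fin N → ℝ} {z : Fin N} {ρ : ℝ}

/-- corners have types -/
theorem r_pos (hA : c.Ax w z ρ) : Nonempty (Fin r) := by
  by_contra hne
  have hE : IsEmpty (Fin r) := not_nonempty_iff.mp hne
  have h1 : c.O ≤ c.K 0 := hA.lb.lab 0 le_rfl (by rw [mul_zero]; exact one_pos) c.O le_rfl fun i => (hE.false i).elim
  rw [hA.bx.K_zero] at h1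
  have h2 : H (vd c.q 1) ≤ 0 := by
    have h3 : vd c.q 1 ≤ (⊥ : S.L) := (le_sup_left : c.P ≤ c.O).trans h1
    rw [le_bot_iff.mp h3, H_bot]
  have h3 : h (vd c.q 1) ⊥ = _ := hA.ln.real
  rw [h_bot] at h3
  rw [h3] at h2
  have h4 : (0 : ℝ) < (Fintype.card (Fin (d + 1)) : ℝ) := by
    rw [Fintype.card_fin]
    positivity
  linarith

section zoom

variable {y e : ℝ} {he : 0 < e} {h1 : e ≤ 1} {Z : ∀ k, Setoid (S.F k).Ω} {c' : CD (S.chg Z e he) d N r}

theorem zs_lt (he : 0 < e) (hye : w z * y + e ≤ 1) {s : ℝ} (hs1 : w z * s < 1) : w z * (y + e * s) < 1 := by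
  have h4 : e * (w z * s) < e * 1 := mul_lt_mul_of_pos_left hs1 he
  nlinarith

/-- the time of the zoom -/
theorem dg_t_le (hA : c.Ax w z ρ) (hy : 0 ≤ y) (hye : w z * y + e ≤ 1) (hz : c.ZR w z y e he h1 Z c') {s : ℝ}
    (hs : 0 ≤ s) (hs1 : w z * s < 1) (i : Fin r) :
    dg (c'.q 0) s ≤ chgL Z e he (c.xi i ⊔ dg (c.q 0) (y + e * s)) := by
  have hZ : Z = (hA.bx.bdd y).toInf.1 := funext hz.base
  subst hZ
  obtain ⟨X, hX, hX'⟩ := hz.q 0
  have hw := hA.w1 z
  have hs1' : s ≤ 1 := by nlinarith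
  have hes : e * s ≤ e := by nlinarith
  have hys := sse hA hy hye
  rw [hX', cQ_dg _ _ _ _ _ hs1']
  apply chgL_mono
  have h2 := dg_of_sc hy (by nlinarith : y ≤ y + e * s) (by linarith) X
  rw [add_sub_cancel_left, ← hX] at h2
  refine h2.trans ((dg_sub_le _ _ (by linarith)).trans (sup_le le_sup_right ?_))
  refine (dg_mono _ (by linarith)).trans ((q0_le hA.bx y 0).trans ?_)
  have h3 := (zs_lt he hye hs1).le
  exact (hA.bx.mono y (y + e * s) hy (by nlinarith) h3).trans (hA.bx.xi _ (by nlinarith) h3 i)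

end zoom

/-- [CONN] -/
theorem st_CONN : ST_CONN := by
  intro d N r w z ρ C hC S c hc y e he h1 hy hye Z c' hz hc' s hs hs1 l hB h2 h3
  have hA := hC.ax S c hc
  have hA' := hC.ax _ c' hc'
  have hys := zs_lt (w := w) (z := z) he hye hs1
  rw [K_zoom hA hA' hz hs hys.le]
  refine conn_deep hA hy he hs hys hz.base (O_zoom_le hA hy hye hz) (fun i => ?_) l hB h2 h3
  exact sup_le (chgL_mono _ _ _ le_sup_left) (dg_t_le hA hy hye hz hs hs1 i)

/-- [DEEP] -/
theorem st_DEEP : ST_DEEP := by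
  intro d N r w z ρ C hC S c hc y e he h1 hy hye Z c' hz hc' i
  have hA := hC.ax S c hc
  have hA' := hC.ax _ c' hc'
  have hs1 : w z * y ≤ 1 := by linarith
  refine ⟨zoom_time hA hy hye hz i (hA.bx.xi y hy hs1 i), ?_, zoom_ind hA hy hye hz hA' i⟩
  have hZ : Z = (hA.bx.bdd y).toInf.1 := funext hz.base
  subst hZ
  choose X hX hX' using hz.q
  choose Y hY hY' using hz.R
  have hK : cl (hA.bx.bdd y).toInf = c.K y := (io_eq _).symm
  have hM : vd (c'.M z) 1 = chgL _ e he (vd (YM z Y) e) := by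
    have h2 := cQ_vd (hA.bx.bdd y).toInf.1 e he h1 (YM z Y) le_rfl
    rw [mul_one] at h2
    have e1 : c'.M z = fun j => cQ (hA.bx.bdd y).toInf.1 e he h1 (YM z Y j) := by
      funext j
      exact hY' j.1
    rw [e1]
    exact h2
  have hq : dg (c'.q 0) 1 = chgL _ e he (dg (X 0) e) := by
    have h2 := cQ_dg (hA.bx.bdd y).toInf.1 e he h1 (X 0) le_rfl
    rw [mul_one] at h2
    rw [hX', h2]
  have hKO := K_le_O hA hy hs1
  have hPO : c.P ≤ c.O := le_sup_left
  have hYO : vd (YM z Y) e ≤ c.O := by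
    refine le_trans ?_ (Y_le_O hA hy he hye hY)
    rw [vd_le]
    intro j
    exact dg_le_vd Y e j.1
  have hXK : dg (X 0) e ≤ c.K y ⊔ c.P := (dg_le_vd X e 0).trans (X_le hA hy he hye hX)
  -- directions are independent of the point
  have hI : I (vd (c.u i) 1) (vd (YM z Y) e) (c.K y ⊔ c.P) = 0 := by
    have h2 : I c.O (vd (c.u i) 1) (⊥ : S.L) = 0 := by
      rw [I_comm]
      exact I_zero_mono hA.ln.r1 ((Finset.le_sup (f := fun i => vd (c.u i) 1) (Finset.mem_univ i)).trans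
        le_sup_left) le_sup_left
    have h3 : I c.O (vd (c.u i) 1) ((c.K y ⊔ c.P) ⊔ ⊥) = 0 := by
      apply le_antisymm _ (I_nonneg _ _ _)
      rw [← h2]
      exact I_cond_le (sup_le hKO hPO)
    rw [sup_bot_eq] at h3
    rw [I_comm]
    exact I_zero_mono h3 (hYO.trans le_sup_left) le_sup_left
  have h2 : h (vd (YM z Y) e) (vd (c.u i) 1 ⊔ (c.K y ⊔ c.P)) = h (vd (YM z Y) e) (c.K y ⊔ c.P) := by
    rw [I_eq'] at hI
    linarith
  have hb : c.b i ⊔ (dg (X 0) e ⊔ c.K y) ≤ vd (c.u i) 1 ⊔ (c.K y ⊔ c.P) := by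
    refine sup_le ((CD.Ln.b_le hA.ln i).trans (sup_le_sup_left le_sup_right _)) (le_trans ?_ le_sup_right)
    exact sup_le hXK le_sup_left
  have h3 := h_anti (A := vd (YM z Y) e) hb
  have h4 := h_YM hA hy he hye hY
  have hup : h (vd (YM z Y) e) (c.b i ⊔ (dg (X 0) e ⊔ c.K y)) ≤ ((N : ℝ) - 1) * e := by
    refine (h_vd_le _ he.le _).trans (le_of_eq ?_)
    rw [card_sub z]
  rw [hM, hq, ← chgL_sup, h_chgL_inf, hK, sup_assoc]
  have h5 : h (vd (YM z Y) e) (c.b i ⊔ (dg (X 0) e ⊔ c.K y)) = ((N : ℝ) - 1) * e := le_antisymm hup (by linarith)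
  rw [h5, mul_div_cancel_right₀ _ he.ne']

/-! ### walks of one step -/

/-- values of polynomials with coefficients of rate zero at the point -/
theorem cR_le {H' : HH S d N} (hH : Tri w H') (l : Fin N) : dg (c.cR H' l) 1 ≤ c.O := by
  have h2 : MvPolynomial.eval c.pt (H' l) ∈ Kn S 1 le_rfl c.O := by
    refine eval_mem_sub _ _ _ (fun n => (hH.real l n).trans bot_le) fun n _ x _ => ?_
    rcases x with a | a
    · exact (dg_le_vd c.q 1 a).trans le_sup_left
    · exact (dg_le_vd c.R 1 a).trans le_sup_right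
  exact (Kn S 1 le_rfl c.O).sub_mem (show c.R l ∈ Kn S 1 le_rfl c.O from (dg_le_vd c.R 1 l).trans le_sup_right) h2

/-- the label of scale `s` is the box -/
theorem gH_le (hA : c.Ax w z ρ) {H' : HH S d N} (hH : Tri w H') {s : ℝ} (hs : 0 ≤ s) (hs1 : w z * s ≤ 1) :
    vd (gH c H' s) 1 ≤ c.K s := by
  rw [vd_le]
  rintro (a | x)
  · rw [hA.bx.gen s hs hs1]
    exact dg_le_vd (c.G s) 1 a
  · exact (hH.real x.1 x.2.1).trans bot_le

section step

variable {y e : ℝ} {he : 0 < e} {h1 : e ≤ 1} {Z : ∀ k, Setoid (S.F k).Ω} {c' : CD (S.chg Z e he) d N r}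

/-- the functions of the point which the walks keep -/
def oo {j : Fin N} (c : CD S d N r) (D : Dat S (Fin (d + 1)) (Low w j)) :
    (Fin (d + 1) ⊕ Fin N) ⊕ (Low w j ⊕ Low w j) → QS S := Sum.elim c.pt (Sum.elim D.R D.c)

theorem oo_le {H' : HH S d N} (hH : Tri w H') {j : Fin N} {D : Dat S (Fin (d + 1)) (Low w j)}
    (hR : D.R = Rh w j c H') (hi : D.inf ≤ c.O) : vd (oo c D) 1 ≤ c.O := by
  rw [vd_le]
  rintro ((a | a) | (a | a))
  · exact (dg_le_vd c.q 1 a).trans le_sup_left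
  · exact (dg_le_vd c.R 1 a).trans le_sup_right
  · show dg (D.R a) 1 ≤ _
    rw [hR]
    exact cR_le hH a.1
  · exact (D.Jinf _).trans hi

/-- WALKS OF ONE STEP: on a zoom, over the deep lines, from transports -/
theorem walk_step (hA : c.Ax w z ρ) (hA' : c'.Ax w z ρ) (hy : 0 ≤ y) (hye : w z * y + e ≤ 1)
    (hz : c.ZR w z y e he h1 Z c') {H' : HH (S.chg Z e he) d N} (hH : Tri w H') {j : Fin N}
    {D : Dat (S.chg Z e he) (Fin (d + 1)) (Low w j)} (hq : D.q = c'.q) (hR : D.R = Rh w j c' H')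
    (hz' : D.z = c'.R j) (hwt : D.wt = wt d w j) (hw : D.w = w j) (hi : D.inf ≤ c'.O) {s : ℝ} (hs : 0 < s)
    (hs1 : w z * s < 1) (hb : LB D.q D.R D.Pj D.wt (gH c' H' s) s)
    (hJ : LR D.q D.R D.Pj D.z D.J (gH c' H' s) (D.w * s)) {r₁ : ℝ} (hr : D.w * s ≤ r₁)
    (T : ∀ i, Nonempty (Typ D (c'.q 0) r₁ (chgL Z e he (c.b i)) (chgL Z e he (c.xi i)))) :
    ∃ k : Walk D s, k.T ∧ k.RC := by
  classical
  have T' : ∀ i, Typ D (c'.q 0) r₁ (chgL Z e he (c.b i)) (chgL Z e he (c.xi i)) := fun i => (T i).some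
  have : Nonempty (Fin r) := r_pos hA
  let _ : ∀ i, Fintype (T' i).φ := fun i => (T' i).fin
  have hw1 := hA.w1 z
  have hs1' : s < 1 := by nlinarith
  obtain ⟨X, hX⟩ : ∃ X : WI (S.chg Z e he) (Fin r) (Fin (d + 1)) (Fin (c'.m s) ⊕ (Σ j : Fin N, {m // m ∈ (H' j).support}))
      ((Fin (d + 1) ⊕ Fin N) ⊕ (Low w j ⊕ Low w j)) (fun i => (T' i).φ),
      X = wiG hA hA' hy hye hz hs.le hs1 (fun i => (T' i).bV) (fun i => (T' i).bdd) (fun i => (T' i).ioB) (oo c' D)
        (oo_le hH hR hi) (fun a => ⟨Sum.inl (Sum.inl a), rfl⟩) (fun i => (T' i).f) (fun i => (T' i).fX) (gH c' H' s)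
        (gH_le hA' hH hs.le hs1.le) (fun a => ⟨Sum.inl a, rfl⟩) := ⟨_, rfl⟩
  have hwj : D.w * s ≤ 1 := by
    rw [hw]
    exact (mul_le_mul_of_nonneg_right (hA.wz j) hs.le).trans hs1.le
  refine walk_of_WI (d := univ.sup fun i => (T' i).p.totalDegree) X ?_ ?_ hs ?_ hwj ?_ ?_ ?_ ?_ ?_ ?_ ?_
  · rw [hX, hq]
    rfl
  · rw [hX]
    exact hb
  · intro a
    rw [hwt]
    rcases a with a | a
    · show 1 * s < 1
      linarith
    · show w a.1 * s < 1
      exact (mul_le_mul_of_nonneg_right (hA.wz a.1) hs.le).trans_lt hs1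
  · rw [hX]
    exact hJ
  · refine hi.trans ?_
    rw [hX]
    show vd c'.q 1 ⊔ vd c'.R 1 ≤ vd (oo c' D) 1
    refine sup_le ?_ ?_
    · rw [vd_le]
      intro a
      exact dg_le_vd (oo c' D) 1 (Sum.inl (Sum.inl a))
    · rw [vd_le]
      intro a
      exact dg_le_vd (oo c' D) 1 (Sum.inl (Sum.inr a))
  · intro k
    refine ⟨Sum.inr (Sum.inl k), ?_⟩
    rw [hX]
    rfl
  · refine ⟨Sum.inl (Sum.inr j), ?_⟩
    rw [hX, hz']
    rfl
  · intro l
    refine ⟨Sum.inr (Sum.inr l), ?_⟩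
    rw [hX]
    rfl
  · refine ⟨Sum.inl (Sum.inl 0), ?_⟩
    rw [hX]
    rfl
  · intro i W P P' h2 h3 h4
    rw [hX] at h2 h3 ⊢
    have hAg : Pool.Agent.Helper14.WLK.Ag (T' i).bV P P' := h2
    have hf : ∀ a, P.qs ((T' i).f a) = P'.qs ((T' i).f a) := h3
    refine ⟨W, Pj.id W, ?_⟩
    have hE : EdgD D (D.w * s) (univ.sup fun i => (T' i).p.totalDegree) P P'
        (P.map (io (S := S.chg Z e he) (T' i).bV ⊔ dg (c'.q 0) 1) ⊔ dg (P'.qs (c'.q 0)) 1) := by
      refine edgD_of_tr ?_ (hAg.map_io (T' i).bdd).ge (fun k => MvPolynomial.map P.qs ((T' i).G k))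
        (MvPolynomial.map P.qs (T' i).p) (fun k => ?_) ?_ (fun k => Id_mono hr ((T' i).hG W P P' hAg hf k))
        (Id_mono hr ((T' i).hp W P P' hAg hf)) (fun l => Id_mono hr ((T' i).hT W P P' hAg hf l)) ?_
      · show vd D.q 1 ≤ _
        rw [(T' i).ioB, hq]
        exact (CD.Ln.P_le hA'.ln i).trans (sup_le_sup_right (hz.b i) _)
      · rw [(T' i).ioB]
        exact map_PK P ((T' i).Gk k)
      · rw [(T' i).ioB]
        exact map_PK P (T' i).pk
      · refine le_trans ?_ (Finset.le_sup (f := fun i => (T' i).p.totalDegree) (Finset.mem_univ i))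
        apply Finset.sup_mono
        exact MvPolynomial.support_map_subset _ _
    rw [Pj.id_map]
    exact hE

end step

end

end Pool.Agent.Helper92.THA
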